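import Pool.Agent.H363Z.BurC

set_option autoImplicit false

open Pool.Agent.H363Z

universe u

/-- Every finitely generated diagram group has the Burillo property: for each finite generating
set, the word length is bi-Lipschitz equivalent to the number of cells of the reduced diagram. -/
theorem Pool.Agent.Results.MP_5cc51b_al.ABurilloAll.result :
    ∀ (A : Type u) (P : Pres A) (w : List A), w ≠ [] →
      ∀ S : Finset (DiagramGroup P w), Subgroup.closure (S : Set (DiagramGroup P w)) = ⊤ →
        ∃ C : ℝ, 1 ≤ C ∧ ∀ g : DiagramGroup P w,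
          (∃ γ : Loop P w, Reduced γ.1 ∧ DiagramGroup.mk γ = g) ∧
          ∀ γ : Loop P w, Reduced γ.1 → DiagramGroup.mk γ = g →
            C⁻¹ * (wordLen (S : Set (DiagramGroup P w)) g : ℝ) ≤ γ.1.length ∧
            (γ.1.length : ℝ) ≤ C * (wordLen (S : Set (DiagramGroup P w)) g : ℝ) :=
  fun _ _ _ _ S hS => burillo S hS
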